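import Pool.Agent.MP_fcd29e_an.H11.CMain

/-!
In every large dimension there is a smoothly bounded pseudoconvex domain `Ω ⊂ ℂℙⁿ` with
`H^{p+1,p+1}_{W^s}(Ω) ≠ 0` for some `p`, for every real `s > n + 1`.
-/

set_option autoImplicit false

open Pool.Agent.MP_fcd29e_an.H81 Pool.Agent.MP_fcd29e_an.H31

namespace Pool.Agent.Results.MP_fcd29e_an.Counterexample

theorem result : ∃ n₀ : ℕ, ∀ n ≥ n₀, ∃ ρ : E (n + 1) → ℝ, Dom ρ ∧ IsConnected (Om ρ) ∧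
    ∀ s : ℝ, n + 1 < s → ∃ p : ℕ, p + 1 ≤ n ∧ ¬ VanishR ρ s (p + 1) p :=
  Pool.Agent.MP_fcd29e_an.H11.mainC

end Pool.Agent.Results.MP_fcd29e_an.Counterexample
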