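import Pool.Agent.MP_fcd29e_an.H99.HMain

/-!
Holomorphic functions on the cone over `ℂℙⁿ ∖ closure Ω` are entire, for smoothly bounded
pseudoconvex `Ω ⊂ ℂℙⁿ`, `n ≥ 3`.
-/

set_option autoImplicit false

open Pool.Agent.MP_fcd29e_an.H81

namespace Pool.Agent.Results.MP_fcd29e_an.HartogsConcave

theorem result (n : ℕ) (hn : 3 ≤ n) (ρ : E (n + 1) → ℝ) (h : Dom ρ) (F : E (n + 1) → ℂ)
    (hF : DifferentiableOn ℂ F {z | z ≠ 0 ∧ 0 < ρ z}) :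
    ∃ G : E (n + 1) → ℂ, Differentiable ℂ G ∧ Set.EqOn G F {z | z ≠ 0 ∧ 0 < ρ z} :=
  Pool.Agent.MP_fcd29e_an.H99.Hart.hartogs (by omega) h hF

end Pool.Agent.Results.MP_fcd29e_an.HartogsConcave
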