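import Pool.Agent.MP_fcd29e_an.H31.Main3

/-!
`H^{p,q}_{W^s}(Ω) = 0` for smoothly bounded pseudoconvex `Ω ⊂ ℂℙⁿ`, `n ≥ 3`, `q ∈ {n - 1, n}`
and every real `s > 0`.
-/

set_option autoImplicit false

open Pool.Agent.MP_fcd29e_an.H81 Pool.Agent.MP_fcd29e_an.H31

namespace Pool.Agent.Results.MP_fcd29e_an.SobolevAllOrders

theorem result (n : ℕ) (hn : 3 ≤ n) (ρ : E (n + 1) → ℝ) (h : Dom ρ) (s : ℝ) (hs : 0 < s)
    (p q : ℕ) (h1 : n - 1 ≤ q + 1) (h2 : q + 1 ≤ n) : VanishR ρ s p q := by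
  obtain ⟨r, rfl⟩ : ∃ r, n = r + 2 := ⟨n - 2, by omega⟩
  obtain ⟨φ, hφ⟩ := allD (r + 2 + 1) ρ (by omega) h
  have := allRs r ρ φ h hφ hs p
  obtain rfl | rfl : q = r ∨ q = r + 1 := by omega
  exacts [this.1, this.2]

end Pool.Agent.Results.MP_fcd29e_an.SobolevAllOrders
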